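import Pool.Agent.Q141.CP.Stm

/-! Charged polymers: the part WGT. -/

set_option autoImplicit false

namespace Pool.Agent.Q278.CP

open Pool.Agent.Q141.CP

theorem key {c u : ℝ} (hc : 1 ≤ c) (hu : c ^ 50 ≤ u) (k : ℕ) : c ^ (2 * k) ≤ u ^ ((k : ℝ) / 25) := by
  have hc0 : 0 < c := by linarith
  have h1 : c ^ (2 * k) = (c ^ 50) ^ ((k : ℝ) / 25) := by
    rw [← Real.rpow_natCast c 50, ← Real.rpow_mul hc0.le, ← Real.rpow_natCast c (2 * k)]
    congr 1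
    push_cast
    ring
  rw [h1]
  exact Real.rpow_le_rpow (by positivity) hu (by positivity)

theorem t_WGT : S_WGT := by
  intro η h0 h1
  have hc : (3 : ℝ) ≤ 3 / η := by
    rw [le_div_iff₀ h0]; nlinarith
  have hc1 : (1 : ℝ) ≤ 3 / η := by linarith
  have hc50 : (1 : ℝ) ≤ (3 / η) ^ 50 := one_le_pow₀ hc1
  refine ⟨3 * (3 / η) ^ 50, by linarith, ?_⟩
  intro q hq g hg hq3 hgq hg1
  have hu : (3 / η) ^ 50 ≤ q / 3 := by linarith
  have hu0 : 0 < q / 3 := by linarith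
  have hG : (3 / η) ^ 50 ≤ g 25 := hu.trans hq3
  have hG0 := hg 25
  refine ⟨fun l => div_nonneg (hg l).le (Real.rpow_nonneg hG0.le _), ?_, ?_⟩
  · show g 25 / (g 25) ^ (((25 : ℕ) : ℝ) / 25) ≤ 1
    rw [show (((25 : ℕ) : ℝ) / 25) = 1 by norm_num, Real.rpow_one, div_self hG0.ne']
  · intro l hl hl25
    show g l / (g 25) ^ ((l : ℝ) / 25) ≤ η ^ l
    have hη : (3 / η) ^ l * η ^ l = 3 ^ l := by
      rw [← mul_pow, div_mul_cancel₀ _ h0.ne']
    have hηl : 0 < η ^ l := pow_pos h0 l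
    have hp0 : 0 < (g 25) ^ ((l : ℝ) / 25) := Real.rpow_pos_of_pos hG0 _
    rw [div_le_iff₀ hp0]
    by_cases hm : l % 26 = 25
    · have hl51 : 51 ≤ l := by omega
      obtain ⟨k, rfl⟩ : ∃ k, l = k + 25 := ⟨l - 25, by omega⟩
      have h2 : (q / 3) * (3 / η) ^ (2 * k) ≤ (g 25) ^ (((k + 25 : ℕ) : ℝ) / 25) := by
        have e : (((k + 25 : ℕ) : ℝ) / 25) = (k : ℝ) / 25 + 1 := by push_cast; ring
        rw [e, Real.rpow_add hG0, Real.rpow_one, mul_comm]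
        exact mul_le_mul (key hc1 hG k) hq3 hu0.le (Real.rpow_nonneg hG0.le _)
      have h3 : (3 / η) ^ (k + 25 + 1) ≤ (3 / η) ^ (2 * k) :=
        pow_le_pow_right₀ hc1 (by omega)
      have h4 : 3 ≤ η ^ (k + 25) * (3 / η) ^ (k + 25 + 1) := by
        rw [pow_succ (3 / η) (k + 25), ← mul_assoc, mul_comm (η ^ (k + 25)), hη]
        have : (1 : ℝ) ≤ 3 ^ (k + 25) := one_le_pow₀ (by norm_num)
        nlinarith
      calc g (k + 25) ≤ q := hgq _
        _ = (q / 3) * 3 := by ring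
        _ ≤ (q / 3) * (η ^ (k + 25) * (3 / η) ^ (k + 25 + 1)) := mul_le_mul_of_nonneg_left h4 hu0.le
        _ = η ^ (k + 25) * ((q / 3) * (3 / η) ^ (k + 25 + 1)) := by ring
        _ ≤ η ^ (k + 25) * ((q / 3) * (3 / η) ^ (2 * k)) := by gcongr
        _ ≤ η ^ (k + 25) * (g 25) ^ (((k + 25 : ℕ) : ℝ) / 25) := by gcongr
    · have h2 := key hc1 hG l
      have h3 : (3 / η) ^ l ≤ (3 / η) ^ (2 * l) := pow_le_pow_right₀ hc1 (by omega)
      have h4 : (1 : ℝ) ≤ 3 ^ l := one_le_pow₀ (by norm_num)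
      calc g l ≤ 1 := hg1 l hm
        _ ≤ 3 ^ l := h4
        _ = η ^ l * (3 / η) ^ l := by rw [mul_comm, hη]
        _ ≤ η ^ l * (g 25) ^ ((l : ℝ) / 25) := by
          gcongr
          exact h3.trans h2

end Pool.Agent.Q278.CP
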